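import Mathlib
import Pool.Agent.H80.L.R_seed8.H857R2.NC.Stm
import Pool.Agent.H80.L.R_seed8.Helper176.LJBall

/-!
Milman-Pettis theorem: a uniformly convex Banach space is reflexive.
-/

set_option autoImplicit false

namespace H857NC

open Filter Topology Set

universe u

section

variable {G : Type u} [NormedAddCommGroup G] [NormedSpace ℝ G]

private lemma mpt_key [UniformConvexSpace G] (xi : StrongDual ℝ (StrongDual ℝ G)) (hxi : ‖xi‖ = 1)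
    {ε : ℝ} (hε : 0 < ε) : ∃ ψ : StrongDual ℝ G, ∃ κ > 0, ∀ y y' : G, ‖y‖ ≤ 1 → ‖y'‖ ≤ 1 →
      |ψ y - xi ψ| < κ → |ψ y' - xi ψ| < κ → ‖y - y'‖ < ε := by
  obtain ⟨δ, hδ, h⟩ := exists_forall_closed_ball_dist_add_le_two_sub G hε
  have h1 : 1 - δ / 4 < ‖xi‖ := by rw [hxi]; linarith
  obtain ⟨ψ0, hψ0, hx⟩ := ContinuousLinearMap.exists_lt_apply_of_lt_opNorm xi h1
  have h2 : ∃ ψ : StrongDual ℝ G, ‖ψ‖ ≤ 1 ∧ 1 - δ / 4 < xi ψ := by
    rcases le_total 0 (xi ψ0) with h0 | h0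
    · exact ⟨ψ0, hψ0.le, by rwa [Real.norm_eq_abs, abs_of_nonneg h0] at hx⟩
    · refine ⟨-ψ0, by rw [norm_neg]; exact hψ0.le, ?_⟩
      rw [map_neg]
      rwa [Real.norm_eq_abs, abs_of_nonpos h0] at hx
  obtain ⟨ψ, hψ, hx⟩ := h2
  refine ⟨ψ, δ / 4, by positivity, fun y y' hy hy' h3 h4 => ?_⟩
  by_contra hcon
  push Not at hcon
  have h5 := h hy hy' hcon
  have h6 : ψ (y + y') ≤ ‖y + y'‖ := by
    calc ψ (y + y') ≤ |ψ (y + y')| := le_abs_self _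
      _ ≤ ‖ψ‖ * ‖y + y'‖ := ψ.le_opNorm _
      _ ≤ 1 * ‖y + y'‖ := by gcongr
      _ = ‖y + y'‖ := one_mul _
  rw [map_add] at h6
  have h7 := (abs_lt.1 h3).1
  have h8 := (abs_lt.1 h4).1
  linarith

private lemma mpt_unit [CompleteSpace G] [UniformConvexSpace G]
    (xi : StrongDual ℝ (StrongDual ℝ G)) (hxi : ‖xi‖ = 1) :
    ∃ y : G, ∀ φ : StrongDual ℝ G, φ y = xi φ := by
  set Ev : G → (StrongDual ℝ G → ℝ) := fun y φ => φ y with hEv
  set x0 : StrongDual ℝ G → ℝ := fun φ => xi φ with hx0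
  set F : Filter G := comap Ev (𝓝 x0) ⊓ 𝓟 (Metric.closedBall 0 1) with hF
  have hne : F.NeBot := by
    rw [hF, inf_principal_neBot_iff]
    intro U hU
    obtain ⟨V, hV, hVU⟩ := mem_comap.1 hU
    obtain ⟨s, ε, hε, h⟩ := Pool.Agent.Helper176.LJ.pi_nhds hV
    obtain ⟨y, hy, hy'⟩ := Pool.Agent.Helper176.LJ.helly xi hxi.le s hε
    refine ⟨y, hVU (h _ fun i hi => hy' i hi), ?_⟩
    simpa using hy
  have hev : ∀ φ : StrongDual ℝ G, Tendsto (fun y => φ y) F (𝓝 (xi φ)) := by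
    intro φ
    have h1 : Tendsto Ev F (𝓝 x0) := tendsto_comap.mono_left inf_le_left
    exact (tendsto_pi_nhds.1 h1) φ
  have hcauchy : Cauchy F := by
    rw [Metric.cauchy_iff]
    refine ⟨hne, fun ε hε => ?_⟩
    obtain ⟨ψ, κ, hκ, h⟩ := mpt_key xi hxi hε
    have h1 : {y | |ψ y - xi ψ| < κ} ∈ F := by
      have := (hev ψ) (Metric.ball_mem_nhds (xi ψ) hκ)
      simpa [mem_map, Metric.ball, Real.dist_eq] using this
    have h2 : Metric.closedBall (0 : G) 1 ∈ F := mem_inf_of_right (mem_principal_self _)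
    refine ⟨_, inter_mem h1 h2, ?_⟩
    rintro x ⟨hx1, hx2⟩ y ⟨hy1, hy2⟩
    rw [dist_eq_norm]
    exact h x y (by simpa using hx2) (by simpa using hy2) hx1 hy1
  obtain ⟨y, hy⟩ := CompleteSpace.complete hcauchy
  refine ⟨y, fun φ => ?_⟩
  have h3 : Tendsto (fun y => φ y) F (𝓝 (φ y)) := (φ.continuous.tendsto y).mono_left hy
  exact tendsto_nhds_unique h3 (hev φ)

end

private lemma mpt_norm {E : Type u} [NormedAddCommGroup E] [NormedSpace ℝ E] (xi : StrongDual ℝ E)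
    (hn : ‖xi‖ ≠ 0) : ‖‖xi‖⁻¹ • xi‖ = 1 := by
  rw [norm_smul, norm_inv, norm_norm, inv_mul_cancel₀ hn]

theorem MPT : MPT_stm.{u} := by
  intro G _ _ _ _ xi
  rcases eq_or_ne xi 0 with h0 | h0
  · exact ⟨0, by rw [h0, map_zero]⟩
  have hn : ‖xi‖ ≠ 0 := fun h => h0 (by
    ext φ
    have h1 := xi.le_opNorm φ
    rw [h, zero_mul] at h1
    simpa using h1)
  obtain ⟨y, hy⟩ := mpt_unit (‖xi‖⁻¹ • xi) (mpt_norm xi hn)
  refine ⟨‖xi‖ • y, ?_⟩
  ext φ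
  rw [NormedSpace.dual_def, map_smul, hy φ, _root_.smul_apply, smul_eq_mul, smul_eq_mul,
    ← mul_assoc, mul_inv_cancel₀ hn, one_mul]

end H857NC
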